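import Pool.Agent.helper20.FX.Spec

set_option autoImplicit false

namespace Pool.Agent.FXM

open Finset

theorem BLK (hGDC : GDC_stmt) (hBAD : BAD_stmt) (hREL : REL_stmt) : BLK_stmt := by
  intro ε hε
  obtain ⟨C, hC, hbad⟩ := hBAD ε hε
  refine ⟨13 + 19 * C * 20 ^ ε, by positivity, fun k M y hk hk3 hy => ?_⟩
  set C' : ℝ := 13 + 19 * C * 20 ^ ε with hC'
  have hC'1 : 1 ≤ C' := by
    have : 0 < 19 * C * (20 : ℝ) ^ ε := by positivity
    linarith
  set W : Finset ℕ := (SS k M).filter (fun n => y ≤ n ∧ n < 2 * y) with hW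
  set X : ℝ := XX k M with hX
  have hlog : 1 ≤ Real.logb 2 k := by
    have h2 : (2 : ℝ) ≤ k := by
      have : 2 ≤ k := by omega
      exact_mod_cast this
    rw [Real.le_logb_iff_rpow_le (by norm_num) (by linarith), Real.rpow_one]
    exact h2
  have hy1 : (1 : ℝ) ≤ y := by exact_mod_cast hy
  have hy0 : (0 : ℝ) < y := by linarith
  have hX0 : 0 ≤ X := by
    rw [hX]
    unfold XX
    positivity
  rcases Nat.eq_zero_or_pos M with hM | hM
  · have hW0 : W = ∅ := by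
      rw [hW]
      apply Finset.eq_empty_of_forall_notMem
      intro n hn
      rw [Finset.mem_filter, SS, Finset.mem_filter, Finset.mem_Icc] at hn
      omega
    rw [hW0]
    simp only [card_empty, Nat.cast_zero]
    positivity
  have hM1 : (1 : ℝ) ≤ M := by exact_mod_cast hM
  have hMX : (M : ℝ) ≤ X := by
    rw [hX]
    unfold XX
    exact le_mul_of_one_le_right (by linarith) hlog
  have hX1 : 1 ≤ X := hM1.trans hMX
  have hXε : 1 ≤ X ^ ε := Real.one_le_rpow hX1 hε.le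
  have hmem : ∀ n ∈ W, (1 ≤ n ∧ n ≤ M) ∧ k * 2 ^ n + 1 ∣ 2 ^ M + 1 ∧ y ≤ n ∧ n < 2 * y := by
    intro n hn
    rw [hW, Finset.mem_filter, SS, Finset.mem_filter, Finset.mem_Icc] at hn
    exact ⟨hn.1.1, hn.1.2, hn.2⟩
  set z2 : ℝ := (X / y) ^ (2 / 3 : ℝ) with hz2
  have hz0 : 0 ≤ z2 := by positivity
  have hfin : ∀ a : ℝ, (W.card : ℝ) ≤ a * z2 → 0 ≤ a → a ≤ C' → (W.card : ℝ) ≤ C' * X ^ ε * z2 := by
    intro a h1 h2 h3
    refine h1.trans (mul_le_mul_of_nonneg_right ?_ hz0)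
    calc a ≤ C' := h3
      _ = C' * 1 := (mul_one _).symm
      _ ≤ C' * X ^ ε := mul_le_mul_of_nonneg_left hXε (by linarith)
  rcases le_or_gt X ((y : ℝ) ^ 2) with h1 | h1
  · have hW0 : W = ∅ := by
      apply Finset.eq_empty_of_forall_notMem
      intro n hn
      obtain ⟨⟨hn1, hn2⟩, hd, hyn, -⟩ := hmem n hn
      have h2 := (hREL k M n hk hk3 hn1 hd).2.2.2
      have h3 : (y : ℝ) ≤ n := by exact_mod_cast hyn
      have h4 : (y : ℝ) ^ 2 ≤ (n : ℝ) ^ 2 := pow_le_pow_left₀ hy0.le h3 2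
      rw [← hX] at h2
      linarith
    rw [hW0]
    simp only [card_empty, Nat.cast_zero]
    positivity
  rcases le_or_gt (y : ℝ) (X ^ (2 / 5 : ℝ)) with h2 | h2
  · have hc : (W.card : ℝ) ≤ y := by
      have hsub : W ⊆ Finset.Ico y (2 * y) := by
        intro n hn
        obtain ⟨-, -, hyn, hn2⟩ := hmem n hn
        rw [Finset.mem_Ico]
        exact ⟨hyn, hn2⟩
      have h3 := Finset.card_le_card hsub
      rw [Nat.card_Ico] at h3
      have h4 : W.card ≤ y := by omega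
      exact_mod_cast h4
    have hyz : (y : ℝ) ≤ z2 := by
      rw [hz2, Real.div_rpow hX0 hy0.le, le_div_iff₀ (by positivity)]
      have h3 : (y : ℝ) * (y : ℝ) ^ (2 / 3 : ℝ) = (y : ℝ) ^ (5 / 3 : ℝ) := by
        have h4 : (y : ℝ) * (y : ℝ) ^ (2 / 3 : ℝ) = (y : ℝ) ^ (1 : ℝ) * (y : ℝ) ^ (2 / 3 : ℝ) := by
          rw [Real.rpow_one]
        rw [h4, ← Real.rpow_add hy0]
        norm_num
      rw [h3]
      calc (y : ℝ) ^ (5 / 3 : ℝ) ≤ (X ^ (2 / 5 : ℝ)) ^ (5 / 3 : ℝ) :=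
            Real.rpow_le_rpow hy0.le h2 (by norm_num)
        _ = X ^ (2 / 3 : ℝ) := by
            rw [← Real.rpow_mul hX0]
            norm_num
    refine hfin 1 ?_ (by norm_num) hC'1
    rw [one_mul]
    exact hc.trans hyz
  · -- the main case
    have hXy : 1 ≤ X / y := by
      rw [le_div_iff₀ hy0]
      nlinarith
    have hz1 : 1 ≤ z2 := Real.one_le_rpow hXy (by norm_num)
    have hXy5 : X ≤ (y : ℝ) ^ (5 / 2 : ℝ) := by
      calc X = (X ^ (2 / 5 : ℝ)) ^ (5 / 2 : ℝ) := by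
            rw [← Real.rpow_mul hX0]
            norm_num
        _ ≤ (y : ℝ) ^ (5 / 2 : ℝ) := Real.rpow_le_rpow (by positivity) h2.le (by norm_num)
    have hXy3 : X / y ≤ (y : ℝ) ^ (3 / 2 : ℝ) := by
      rw [div_le_iff₀ hy0]
      have h4 : (y : ℝ) ^ (3 / 2 : ℝ) * y = (y : ℝ) ^ (5 / 2 : ℝ) := by
        have h5 : (y : ℝ) ^ (3 / 2 : ℝ) * y = (y : ℝ) ^ (3 / 2 : ℝ) * (y : ℝ) ^ (1 : ℝ) := by
          rw [Real.rpow_one]
        rw [h5, ← Real.rpow_add hy0]
        norm_num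
      rw [h4]
      exact hXy5
    have hzy : z2 ≤ y := by
      calc z2 ≤ ((y : ℝ) ^ (3 / 2 : ℝ)) ^ (2 / 3 : ℝ) :=
            Real.rpow_le_rpow (by positivity) hXy3 (by norm_num)
        _ = y := by
            rw [← Real.rpow_mul hy0.le]
            norm_num
    have hyX : (y : ℝ) ≤ X := by nlinarith
    set T : ℕ := ⌈18 * z2⌉₊ with hT
    have hT1 : 18 * z2 ≤ T := Nat.le_ceil _
    have hT2 : (T : ℝ) ≤ 19 * z2 := by
      have := (Nat.ceil_lt_add_one (show 0 ≤ 18 * z2 by positivity)).le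
      rw [← hT] at this
      linarith
    have hT3 : 1 ≤ T := by
      have h3 : (1 : ℝ) ≤ T := by linarith
      exact_mod_cast h3
    set V := W.filter (fun n => M % n = 0 ∨ n < M % n + T) with hV
    set G := W.filter (fun n => ¬ (M % n = 0 ∨ n < M % n + T)) with hG
    have hcard : W.card = V.card + G.card := (Finset.card_filter_add_card_filter_not _).symm
    have hVc : (V.card : ℝ) ≤ 19 * C * 20 ^ ε * X ^ ε * z2 := by
      have h3 := hbad M T V hT3 (by
        intro n hn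
        rw [hV, Finset.mem_filter] at hn
        obtain ⟨⟨hn1, hn2⟩, -, -, -⟩ := hmem n hn.1
        exact ⟨hn1, hn2, hn.2⟩)
      have h4 : ((M : ℝ) + T) ^ ε ≤ 20 ^ ε * X ^ ε := by
        rw [← Real.mul_rpow (by norm_num) hX0]
        exact Real.rpow_le_rpow (by positivity) (by linarith) hε.le
      calc (V.card : ℝ) ≤ C * T * ((M : ℝ) + T) ^ ε := h3
        _ ≤ C * (19 * z2) * (20 ^ ε * X ^ ε) := by gcongr
        _ = 19 * C * 20 ^ ε * X ^ ε * z2 := by ring
    have hGc : (G.card : ℝ) ≤ 12 * z2 := by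
      refine hGDC k M y G hk hk3 hy h2.le h1 ?_
      intro n hn
      rw [hG, Finset.mem_filter] at hn
      obtain ⟨⟨hn1, hn2⟩, hd, hyn, hn3⟩ := hmem n hn.1
      obtain ⟨hn4, hn5⟩ := not_or.mp hn.2
      refine ⟨hyn, hn3, hd, Nat.one_le_iff_ne_zero.mpr hn4, ?_⟩
      have h5 : M % n + T ≤ n := not_lt.mp hn5
      have h6 : ((M % n : ℕ) : ℝ) + T ≤ n := by exact_mod_cast h5
      rw [← hX, ← hz2]
      linarith
    have h7 : (W.card : ℝ) = V.card + G.card := by exact_mod_cast hcard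
    rw [h7]
    calc (V.card : ℝ) + G.card ≤ 19 * C * 20 ^ ε * X ^ ε * z2 + 12 * z2 := add_le_add hVc hGc
      _ ≤ 19 * C * 20 ^ ε * X ^ ε * z2 + 13 * X ^ ε * z2 := by nlinarith
      _ = C' * X ^ ε * z2 := by rw [hC']; ring

end Pool.Agent.FXM
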